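import Pool.Agent.Q164.Newt3

/-!
If every zero of `d²(P)` is a zero of `P` or of `d(P)`, `d(P) = cP + P'`, then `c = 0`.
-/

namespace Pool.Agent.Results.MP_3dabd4_an.CIsZero

open Polynomial

/-- The operator `d(P) = cP + P'`. -/
noncomputable def d (c : ℂ) (P : ℂ[X]) : ℂ[X] := C c * P + derivative P

/-- Condition (Z): every zero of `d(d(P))` is a zero of `P` or of `d(P)`. -/
def ConditionZ (P : ℂ[X]) (c : ℂ) : Prop :=
  ∀ z : ℂ, (d c (d c P)).eval z = 0 → P.eval z = 0 ∨ (d c P).eval z = 0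

theorem result : ∀ (P : ℂ[X]) (c : ℂ), P.natDegree ≠ 0 →
    (∀ z : ℂ, P.eval z = 0 → (derivative P).eval z ≠ 0) → ConditionZ P c → c = 0 := by
  intro P c hP hs hZ
  by_contra hc
  exact Pool.Agent.Q164.Newt.core (Q := C c) (Nat.one_le_iff_ne_zero.2 hP) hs
    (C_ne_zero.2 hc) hZ

end Pool.Agent.Results.MP_3dabd4_an.CIsZero
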